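import Pool.Agent.Helper73.RFn.JSn

/-!
Project RFn, packet JSR: ring properties of jointly smooth families.
-/

set_option autoImplicit false

open Finset Pool.Agent.Helper47.RFn Pool.Agent.Helper73.RFn

namespace Pool.Agent.Helper62.RFn.JSR

variable {n : ℕ} {T : ℝ}

/-- the open set -/
def OO (n : ℕ) (T : ℝ) : Set (EE n × ℝ) := {p | p.1 ≠ 0 ∧ 0 < p.2 ∧ p.2 < T}

theorem isOpen_OO (n : ℕ) (T : ℝ) : IsOpen (OO n T) := by
  have h1 : IsOpen {p : EE n × ℝ | p.1 ≠ 0} := isOpen_ne_fun continuous_fst continuous_const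
  have h2 : IsOpen {p : EE n × ℝ | 0 < p.2} := isOpen_lt continuous_const continuous_snd
  have h3 : IsOpen {p : EE n × ℝ | p.2 < T} := isOpen_lt continuous_snd continuous_const
  have : OO n T = {p : EE n × ℝ | p.1 ≠ 0} ∩ ({p : EE n × ℝ | 0 < p.2} ∩ {p : EE n × ℝ | p.2 < T}) := by
    ext p
    simp [OO]
  rw [this]
  exact h1.inter (h2.inter h3)

/-- the joint function -/
def UU (u : ℝ → EE n → ℝ) : EE n × ℝ → ℝ := fun p => u p.2 p.1

/-- the time derivative -/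
noncomputable def dt (u : ℝ → EE n → ℝ) : ℝ → EE n → ℝ := fun t x => fderiv ℝ (UU u) (x, t) (0, 1)

theorem cdA {u : ℝ → EE n → ℝ} (hu : JS T u) {p : EE n × ℝ} (hp : p ∈ OO n T) :
    ContDiffAt ℝ oo (UU u) p := hu.cd.contDiffAt ((isOpen_OO n T).mem_nhds hp)

theorem dfA {u : ℝ → EE n → ℝ} (hu : JS T u) {p : EE n × ℝ} (hp : p ∈ OO n T) :
    HasFDerivAt (UU u) (fderiv ℝ (UU u) p) p :=
  ((cdA hu hp).differentiableAt (by simp)).hasFDerivAt

theorem sliceX {u : ℝ → EE n → ℝ} (hu : JS T u) {x : EE n} {t : ℝ} (hx : x ≠ 0) (h0 : 0 < t) (h1 : t < T) :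
    HasFDerivAt (u t) ((fderiv ℝ (UU u) (x, t)).comp (ContinuousLinearMap.inl ℝ (EE n) ℝ)) x := by
  have h2 : HasFDerivAt (UU u) (fderiv ℝ (UU u) (x, t)) (x, t) := dfA hu ⟨hx, h0, h1⟩
  exact HasFDerivAt.comp x (f := fun y : EE n => (y, t)) h2 (hasFDerivAt_prodMk_left x t)

theorem sliceT {u : ℝ → EE n → ℝ} (hu : JS T u) {x : EE n} {t : ℝ} (hx : x ≠ 0) (h0 : 0 < t) (h1 : t < T) :
    HasDerivAt (fun r => u r x) (dt u t x) t := by
  have h2 : HasFDerivAt (UU u) (fderiv ℝ (UU u) (x, t)) (x, t) := dfA hu ⟨hx, h0, h1⟩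
  have h3 : HasDerivAt (fun r : ℝ => (x, r)) ((0 : EE n), (1 : ℝ)) t :=
    (hasDerivAt_const t x).prodMk (hasDerivAt_id t)
  exact h2.comp_hasDerivAt t h3

theorem smSlice {u : ℝ → EE n → ℝ} (hu : JS T u) {t : ℝ} (h0 : 0 < t) (h1 : t < T) : Sm (u t) := by
  refine ⟨?_, hu.hom t h0 h1⟩
  have h2 : ContDiffOn ℝ oo (fun x : EE n => (x, t)) {0}ᶜ :=
    (contDiff_id.prodMk contDiff_const).contDiffOn
  exact hu.cd.comp h2 (fun x hx => ⟨hx, h0, h1⟩)

theorem cdFd {u : ℝ → EE n → ℝ} (hu : JS T u) : ContDiffOn ℝ oo (fderiv ℝ (UU u)) (OO n T) :=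
  hu.cd.fderiv_of_isOpen (isOpen_OO n T) (by simp)

theorem cdNorm : ContDiffOn ℝ oo (fun p : EE n × ℝ => ‖p.1‖) (OO n T) := by
  intro p hp
  have h1 : ContDiffAt ℝ oo (fun x : EE n => ‖x‖) p.1 := contDiffAt_norm ℝ hp.1
  exact (h1.comp p contDiffAt_fst).contDiffWithinAt

theorem ed_eq {u : ℝ → EE n → ℝ} (hu : JS T u) (i : Fin (n + 1)) {x : EE n} {t : ℝ} (hx : x ≠ 0)
    (h0 : 0 < t) (h1 : t < T) :
    ed i (u t) x = ‖x‖ * fderiv ℝ (UU u) (x, t) (EuclideanSpace.single i 1, 0) := by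
  unfold ed pd
  rw [(sliceX hu hx h0 h1).fderiv]
  simp

theorem js_ed (hC1 : Goal_C1) {u : ℝ → EE n → ℝ} (hu : JS T u) (i : Fin (n + 1)) :
    JS T (fun t => ed i (u t)) := by
  refine ⟨?_, fun t h0 h1 => ?_⟩
  · have h1 : ContDiffOn ℝ oo (fun p : EE n × ℝ => ‖p.1‖ * fderiv ℝ (UU u) p (EuclideanSpace.single i 1, 0))
        (OO n T) := cdNorm.mul ((cdFd hu).clm_apply contDiffOn_const)
    refine h1.congr fun p hp => ?_
    exact ed_eq hu i hp.1 hp.2.1 hp.2.2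
  · exact ((hC1 n).2.2.2.2.2.2.2.2.1 (u t) i (smSlice hu h0 h1)).hom

theorem js_Ew (hC1 : Goal_C1) {u : ℝ → EE n → ℝ} (hu : JS T u) (w : List (Fin (n + 1))) :
    JS T (fun t => Ew w (u t)) := by
  induction w with
  | nil => exact hu
  | cons i w ih => exact js_ed hC1 ih i

theorem js_dt {u : ℝ → EE n → ℝ} (hu : JS T u) : JS T (dt u) := by
  refine ⟨(cdFd hu).clm_apply contDiffOn_const, fun t h0 h1 => ?_⟩
  intro r x hr
  by_cases hx : x = 0
  · simp [hx]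
  have hrx : r • x ≠ 0 := smul_ne_zero hr.ne' hx
  have h2 := sliceT hu hrx h0 h1
  have h3 := sliceT hu hx h0 h1
  have h4 : (fun s => u s (r • x)) =ᶠ[nhds t] fun s => u s x := by
    filter_upwards [Ioo_mem_nhds h0 h1] with s hs
    exact hu.hom s hs.1 hs.2 r x hr
  exact (h2.congr_of_eventuallyEq h4.symm).unique h3

theorem ed_dt {u : ℝ → EE n → ℝ} (hu : JS T u) (i : Fin (n + 1)) {x : EE n} {t : ℝ} (hx : x ≠ 0)
    (h0 : 0 < t) (h1 : t < T) :
    HasDerivAt (fun r => ed i (u r) x) (ed i (dt u t) x) t := by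
  have hp : ((x, t) : EE n × ℝ) ∈ OO n T := ⟨hx, h0, h1⟩
  -- second derivative
  have hc : ContDiffAt ℝ oo (fderiv ℝ (UU u)) (x, t) :=
    (cdFd hu).contDiffAt ((isOpen_OO n T).mem_nhds hp)
  have hd : HasFDerivAt (fderiv ℝ (UU u)) (fderiv ℝ (fderiv ℝ (UU u)) (x, t)) (x, t) :=
    (hc.differentiableAt (by simp)).hasFDerivAt
  have h2oo : (2 : WithTop ℕ∞) ≤ oo := by
    have h3 : ((2 : ℕ∞) : WithTop ℕ∞) ≤ ((⊤ : ℕ∞) : WithTop ℕ∞) := by exact_mod_cast le_top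
    exact h3
  have hsym : IsSymmSndFDerivAt ℝ (UU u) (x, t) :=
    (cdA hu hp).isSymmSndFDerivAt (by simpa using h2oo)
  -- right side
  have h2 : ed i (dt u t) x
      = ‖x‖ * fderiv ℝ (fderiv ℝ (UU u)) (x, t) (EuclideanSpace.single i 1, 0) (0, 1) := by
    have h3 : HasFDerivAt (fun y : EE n => fderiv ℝ (UU u) (y, t))
        ((fderiv ℝ (fderiv ℝ (UU u)) (x, t)).comp (ContinuousLinearMap.inl ℝ (EE n) ℝ)) x :=
      HasFDerivAt.comp x (f := fun y : EE n => (y, t)) hd (hasFDerivAt_prodMk_left x t)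
    have h4 : HasFDerivAt (dt u t)
        (((fderiv ℝ (fderiv ℝ (UU u)) (x, t)).comp (ContinuousLinearMap.inl ℝ (EE n) ℝ)).flip (0, 1)) x := by
      have := h3.clm_apply (hasFDerivAt_const ((0 : EE n), (1 : ℝ)) x)
      refine this.congr_fderiv ?_
      ext v
      simp
    unfold ed pd
    rw [h4.fderiv]
    simp
  -- left side
  have h5 : HasDerivAt (fun r => ‖x‖ * fderiv ℝ (UU u) (x, r) (EuclideanSpace.single i 1, 0))
      (‖x‖ * fderiv ℝ (fderiv ℝ (UU u)) (x, t) (0, 1) (EuclideanSpace.single i 1, 0)) t := by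
    have h6 : HasDerivAt (fun r : ℝ => (x, r)) ((0 : EE n), (1 : ℝ)) t :=
      (hasDerivAt_const t x).prodMk (hasDerivAt_id t)
    have h7 : HasDerivAt (fun r : ℝ => fderiv ℝ (UU u) (x, r)) (fderiv ℝ (fderiv ℝ (UU u)) (x, t) (0, 1)) t :=
      HasFDerivAt.comp_hasDerivAt t hd h6
    have h8 := h7.clm_apply (hasDerivAt_const t ((EuclideanSpace.single i 1 : EE n), (0 : ℝ)))
    have h9 : HasDerivAt (fun r => fderiv ℝ (UU u) (x, r) (EuclideanSpace.single i 1, 0))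
        (fderiv ℝ (fderiv ℝ (UU u)) (x, t) (0, 1) (EuclideanSpace.single i 1, 0)) t := by
      simpa using h8
    exact h9.const_mul _
  rw [h2, hsym.eq]
  refine h5.congr_of_eventuallyEq ?_
  filter_upwards [Ioo_mem_nhds h0 h1] with r hr
  exact ed_eq hu i hx hr.1 hr.2

theorem Ew_dt (hC1 : Goal_C1) {u : ℝ → EE n → ℝ} (hu : JS T u) (w : List (Fin (n + 1))) :
    ∀ {t : ℝ}, 0 < t → t < T → ∀ {x : EE n}, x ≠ 0 →
      HasDerivAt (fun r => Ew w (u r) x) (Ew w (dt u t) x) t := by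
  induction w with
  | nil =>
    intro t h0 h1 x hx
    exact sliceT hu hx h0 h1
  | cons i w ih =>
    intro t h0 h1 x hx
    have h2 := ed_dt (js_Ew hC1 hu w) i hx h0 h1
    have h3 : ∀ y, y ≠ 0 → dt (fun t => Ew w (u t)) t y = Ew w (dt u t) y := by
      intro y hy
      exact (sliceT (js_Ew hC1 hu w) hy h0 h1).unique (ih h0 h1 hy)
    have h4 : ed i (dt (fun t => Ew w (u t)) t) x = ed i (Ew w (dt u t)) x := by
      unfold ed pd
      congr 2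
      refine Filter.EventuallyEq.fderiv_eq ?_
      filter_upwards [isOpen_compl_singleton.mem_nhds hx] with y hy
      exact h3 y hy
    rw [h4] at h2
    exact h2

end Pool.Agent.Helper62.RFn.JSR

namespace Pool.Agent.Helper62.RFn.JSR

/-- Packet JSR. -/
theorem jsr (hC1 : Goal_C1) : JsrStmt := by
  intro n T
  refine ⟨fun u v hu hv => ⟨?_, ?_, ?_, ?_⟩, fun c => ?_, ?_, fun f hf => ?_, fun i => ?_, ?_, ?_, ?_, ?_, ?_⟩
  · exact ⟨hu.cd.mul hv.cd, fun t h0 h1 r x hr => by simp only [hu.hom t h0 h1 r x hr, hv.hom t h0 h1 r x hr]⟩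
  · exact ⟨hu.cd.add hv.cd, fun t h0 h1 r x hr => by simp only [hu.hom t h0 h1 r x hr, hv.hom t h0 h1 r x hr]⟩
  · exact ⟨hu.cd.sub hv.cd, fun t h0 h1 r x hr => by simp only [hu.hom t h0 h1 r x hr, hv.hom t h0 h1 r x hr]⟩
  · exact ⟨hu.cd.neg, fun t h0 h1 r x hr => by simp only [hu.hom t h0 h1 r x hr]⟩
  · exact ⟨contDiffOn_const, fun t _ _ r x _ => rfl⟩
  · exact ⟨contDiff_snd.contDiffOn, fun t _ _ r x _ => rfl⟩
  · exact ⟨hf.cd.comp contDiff_fst.contDiffOn (fun p hp => hp.1), fun t _ _ => hf.hom⟩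
  · have hf : Sm (nn i : EE n → ℝ) := (hC1 n).2.2.2.2.2.2.2.2.2.2.2 i
    exact ⟨hf.cd.comp contDiff_fst.contDiffOn (fun p hp => hp.1), fun t _ _ => hf.hom⟩
  · intro ι s f hf
    refine ⟨ContDiffOn.sum fun a ha => (hf a ha).cd, fun t h0 h1 r x hr => ?_⟩
    exact Finset.sum_congr rfl fun a ha => (hf a ha).hom t h0 h1 r x hr
  · intro u i hu
    exact js_ed hC1 hu i
  · intro u w hu
    exact js_Ew hC1 hu w
  · intro u hu t h0 h1
    exact smSlice hu h0 h1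
  · intro u hu
    exact ⟨dt u, js_dt hu, fun w t h0 h1 x hx => Ew_dt hC1 hu w h0 h1 hx⟩

end Pool.Agent.Helper62.RFn.JSR
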