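import Pool.Agent.Helper64.RFn.GoalsL

/-! Project RFn: curvature of the cylinder metric and of the cone metric. -/

open Finset Filter Topology

namespace Pool.Agent.Helper62.RFn.CYR

open Pool.Agent.Helper64.RFn Pool.Agent.Helper47.RFn

variable {n : ℕ}

/-- Kronecker symbol -/
def dl (a b : Fin (n + 1)) : ℝ := if a = b then 1 else 0

theorem dl_comm (a b : Fin (n + 1)) : dl a b = dl b a := by simp [dl, eq_comm]

theorem sum_dl (a : Fin (n + 1)) (f : Fin (n + 1) → ℝ) : ∑ m, f m * dl a m = f a := by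
  simp [dl]

theorem sum_dl' (a : Fin (n + 1)) (f : Fin (n + 1) → ℝ) : ∑ m, f m * dl m a = f a := by
  simp [dl]

theorem line {f : EE n → ℝ} {x : EE n} (i : Fin (n + 1)) (hf : DifferentiableAt ℝ f x) :
    HasDerivAt (fun t : ℝ => f (x + t • EuclideanSpace.single i (1 : ℝ))) (pd i f x) 0 := by
  have h1 : HasDerivAt (fun t : ℝ => x + t • EuclideanSpace.single i (1 : ℝ))
      (EuclideanSpace.single i (1 : ℝ)) 0 := by
    simpa using ((hasDerivAt_id (0 : ℝ)).smul_const (EuclideanSpace.single i (1 : ℝ))).const_add x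
  have h2 : HasFDerivAt f (fderiv ℝ f x) (x + (0 : ℝ) • EuclideanSpace.single i (1 : ℝ)) := by
    simpa using hf.hasFDerivAt
  exact h2.comp_hasDerivAt 0 h1

theorem pd_coord (i j : Fin (n + 1)) (x : EE n) :
    DifferentiableAt ℝ (fun y : EE n => y j) x ∧ pd i (fun y : EE n => y j) x = dl i j := by
  have h : HasFDerivAt (fun y : EE n => y j)
      (EuclideanSpace.proj j : EE n →L[ℝ] ℝ) x :=
    (EuclideanSpace.proj j : EE n →L[ℝ] ℝ).hasFDerivAt
  refine ⟨h.differentiableAt, ?_⟩
  rw [pd, h.fderiv]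
  simp [dl, eq_comm]

theorem pd_sq (i : Fin (n + 1)) (x : EE n) :
    DifferentiableAt ℝ (fun y : EE n => ‖y‖ ^ 2) x ∧ pd i (fun y : EE n => ‖y‖ ^ 2) x = 2 * x i := by
  have h := (hasStrictFDerivAt_norm_sq x).hasFDerivAt
  refine ⟨h.differentiableAt, ?_⟩
  rw [pd, h.fderiv]
  simp [EuclideanSpace.inner_single_right]

theorem diff_sm {f : EE n → ℝ} (hf : ContDiffOn ℝ (⊤ : ℕ∞) f {0}ᶜ) {x : EE n} (hx : x ≠ 0) :
    DifferentiableAt ℝ f x :=
  (hf.contDiffAt (isOpen_compl_singleton.mem_nhds hx)).differentiableAt (by simp)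

/-- the difference of the Christoffel symbols -/
noncomputable def NN (G : MF n) (j k l : Fin (n + 1)) (y : EE n) : ℝ :=
  (y j * dl k l + y k * dl j l - G y j k * y l) / ‖y‖ ^ 2

theorem pd_NN {G : MF n} (hG : IsMetric G) (i j k l : Fin (n + 1)) {x : EE n} (hx : x ≠ 0) :
    DifferentiableAt ℝ (NN G j k l) x ∧ pd i (NN G j k l) x =
      ((dl i j * dl k l + dl i k * dl j l - (pd i (fun y => G y j k) x * x l + G x j k * dl i l)) *
        ‖x‖ ^ 2 - (x j * dl k l + x k * dl j l - G x j k * x l) * (2 * x i)) / (‖x‖ ^ 2) ^ 2 := by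
  have hs : ‖x‖ ^ 2 ≠ 0 := by
    have := norm_pos_iff.2 hx
    positivity
  have hg : DifferentiableAt ℝ (fun y => G y j k) x := diff_sm (hG.sm j k).cd hx
  have d1 := (pd_coord i j x).1
  have d2 := (pd_coord i k x).1
  have d3 := (pd_coord i l x).1
  have d4 := (pd_sq i x).1
  have dn : DifferentiableAt ℝ (fun y : EE n => y j * dl k l + y k * dl j l - G y j k * y l) x :=
    ((d1.mul_const _).add (d2.mul_const _)).sub (hg.mul d3)
  have d5 : DifferentiableAt ℝ (fun y : EE n => (‖y‖ ^ 2)⁻¹) x := d4.inv hs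
  have hd : DifferentiableAt ℝ (NN G j k l) x := by
    refine (dn.mul d5).congr_of_eventuallyEq (Eventually.of_forall fun y => ?_)
    exact div_eq_mul_inv _ _
  refine ⟨hd, ?_⟩
  have e := line i hd
  have e1 := line i d1
  have e2 := line i d2
  have e3 := line i d3
  have e4 := line i d4
  have eg := line i hg
  rw [(pd_coord i j x).2] at e1
  rw [(pd_coord i k x).2] at e2
  rw [(pd_coord i l x).2] at e3
  rw [(pd_sq i x).2] at e4
  have h := (((e1.mul_const (dl k l)).add (e2.mul_const (dl j l))).sub (eg.mul e3)).div e4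
    (by simpa using hs)
  have h2 := e.unique h
  rw [h2]
  simp

/-- products of the Christoffel symbols of the cylinder metric -/
theorem quad (chr : CHRn) {G : MF n} (hG : IsMetric G) (i j k l : Fin (n + 1)) {x : EE n}
    (hx : x ≠ 0) :
    ∑ m, (Chr G j k m x - NN G j k m x) * (Chr G i m l x - NN G i m l x) =
      (∑ m, Chr G j k m x * Chr G i m l x)
      - (x i * Chr G j k l x + dl i l * (dl j k - G x j k)
        - (∑ m, Chr G j k m x * G x m i) * x l) / ‖x‖ ^ 2
      - (x j * Chr G i k l x + x k * Chr G i j l x) / ‖x‖ ^ 2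
      + (x j * (x i * dl k l + x k * dl i l - G x i k * x l)
        + x k * (x i * dl j l + x j * dl i l - G x i j * x l)
        - G x j k * (‖x‖ ^ 2 * dl i l)) / (‖x‖ ^ 2) ^ 2 := by
  obtain ⟨h1, h2, h3, h4, h5, h6⟩ := chr n G hG
  have hs : ‖x‖ ^ 2 ≠ 0 := by
    have := norm_pos_iff.2 hx
    positivity
  have hsum : ‖x‖ ^ 2 = ∑ m, x m * x m := by
    rw [EuclideanSpace.real_norm_sq_eq]
    exact Finset.sum_congr rfl fun m _ => by ring
  have hGs : ∀ a b, G x a b = G x b a := by
    intro a b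
    have h := (hG.pos x).isHermitian
    have h' := congrFun (congrFun h a) b
    simpa using h'.symm
  -- the three sums
  have a1 : ∑ m, Chr G j k m x * NN G i m l x =
      (x i * Chr G j k l x + dl i l * (dl j k - G x j k)
        - (∑ m, Chr G j k m x * G x m i) * x l) / ‖x‖ ^ 2 := by
    have e1 : ∀ m, Chr G j k m x * NN G i m l x = (x i * (Chr G j k m x * dl m l) +
        dl i l * (x m * Chr G j k m x) - (Chr G j k m x * G x m i) * x l) / ‖x‖ ^ 2 := by
      intro m
      rw [NN, hGs i m]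
      ring
    simp only [e1]
    rw [← Finset.sum_div, Finset.sum_sub_distrib, Finset.sum_add_distrib, ← Finset.mul_sum,
      ← Finset.mul_sum, ← Finset.sum_mul, sum_dl', h4 j k x hx]
    rfl
  have a2 : ∑ m, NN G j k m x * Chr G i m l x =
      (x j * Chr G i k l x + x k * Chr G i j l x) / ‖x‖ ^ 2 := by
    have e1 : ∀ m, NN G j k m x * Chr G i m l x = (x j * (Chr G i m l x * dl k m) +
        x k * (Chr G i m l x * dl j m) - G x j k * (Chr G i m l x * x m)) / ‖x‖ ^ 2 := by
      intro m
      rw [NN]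
      ring
    simp only [e1]
    rw [← Finset.sum_div, Finset.sum_sub_distrib, Finset.sum_add_distrib, ← Finset.mul_sum,
      ← Finset.mul_sum, ← Finset.mul_sum, sum_dl, sum_dl, h3 i l x hx]
    ring
  have a3 : ∑ m, NN G j k m x * NN G i m l x =
      (x j * (x i * dl k l + x k * dl i l - G x i k * x l)
        + x k * (x i * dl j l + x j * dl i l - G x i j * x l)
        - G x j k * (‖x‖ ^ 2 * dl i l)) / (‖x‖ ^ 2) ^ 2 := by
    have e1 : ∀ m, NN G j k m x * NN G i m l x =
        (x j * ((x i * dl m l + x m * dl i l - G x i m * x l) * dl k m) +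
        x k * ((x i * dl m l + x m * dl i l - G x i m * x l) * dl j m)
        - G x j k * (x i * (x m * dl m l) + dl i l * (x m * x m) - (G x i m * x m) * x l))
          / (‖x‖ ^ 2) ^ 2 := by
      intro m
      rw [NN, NN]
      ring
    simp only [e1]
    rw [← Finset.sum_div, Finset.sum_sub_distrib, Finset.sum_add_distrib, ← Finset.mul_sum,
      ← Finset.mul_sum, ← Finset.mul_sum, sum_dl, sum_dl, Finset.sum_sub_distrib,
      Finset.sum_add_distrib, ← Finset.mul_sum, ← Finset.mul_sum, ← Finset.sum_mul, sum_dl',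
      hG.rad x i, ← hsum]
    ring
  have e : ∀ m, (Chr G j k m x - NN G j k m x) * (Chr G i m l x - NN G i m l x) =
      Chr G j k m x * Chr G i m l x - Chr G j k m x * NN G i m l x
        - NN G j k m x * Chr G i m l x + NN G j k m x * NN G i m l x := fun m => by ring
  simp only [e]
  rw [Finset.sum_add_distrib, Finset.sum_sub_distrib, Finset.sum_sub_distrib, a1, a2, a3]

theorem cyrn (chr : CHRn) (cyc : CYCn) : CYRn := by
  intro n G hG i j k l x hx
  obtain ⟨h1, h2, h3, h4, h5, h6⟩ := chr n G hG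
  have hs : ‖x‖ ^ 2 ≠ 0 := by
    have := norm_pos_iff.2 hx
    positivity
  have hcyl : ∀ a b c (y : EE n), y ≠ 0 → Chr (cyl G) a b c y = Chr G a b c y - NN G a b c y := by
    intro a b c y hy
    rw [cyc n G hG a b c y hy]
    rfl
  have hpd : ∀ a b c d, pd a (Chr (cyl G) b c d) x = pd a (Chr G b c d) x - pd a (NN G b c d) x := by
    intro a b c d
    have e1 : Chr (cyl G) b c d =ᶠ[𝓝 x] fun y => Chr G b c d y - NN G b c d y := by
      filter_upwards [isOpen_compl_singleton.mem_nhds hx] with y hy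
      exact hcyl b c d y hy
    have d1 := diff_sm (h6 b c d) hx
    have d2 := (pd_NN hG a b c d hx).1
    have e2 : fderiv ℝ (fun y => Chr G b c d y - NN G b c d y) x =
        fderiv ℝ (Chr G b c d) x - fderiv ℝ (NN G b c d) x := fderiv_sub d1 d2
    rw [pd, e1.fderiv_eq, e2]
    rfl
  have q1 := quad chr hG i j k l hx
  have q2 := quad chr hG j i k l hx
  have hb1 := h2 i j k x hx
  have hb2 := h2 j i k x hx
  have hsym : ∑ m, Chr G i j m x * G x m k = ∑ m, Chr G j i m x * G x m k :=
    Finset.sum_congr rfl fun m _ => by rw [h1 i j m x]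
  have hGs : G x i j = G x j i := by
    have h := (hG.pos x).isHermitian
    have h' := congrFun (congrFun h i) j
    simpa using h'.symm
  have hij := h1 i j l x
  rw [Rup, Rup, hpd, hpd, (pd_NN hG i j k l hx).2, (pd_NN hG j i k l hx).2]
  have hsplit : ∑ m, (Chr (cyl G) j k m x * Chr (cyl G) i m l x
      - Chr (cyl G) i k m x * Chr (cyl G) j m l x) =
      ∑ m, (Chr G j k m x - NN G j k m x) * (Chr G i m l x - NN G i m l x)
      - ∑ m, (Chr G i k m x - NN G i k m x) * (Chr G j m l x - NN G j m l x) := by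
    rw [← Finset.sum_sub_distrib]
    refine Finset.sum_congr rfl fun m _ => ?_
    rw [hcyl _ _ _ x hx, hcyl _ _ _ x hx, hcyl _ _ _ x hx, hcyl _ _ _ x hx]
  have hsplit2 : ∑ m, (Chr G j k m x * Chr G i m l x - Chr G i k m x * Chr G j m l x) =
      ∑ m, Chr G j k m x * Chr G i m l x - ∑ m, Chr G i k m x * Chr G j m l x :=
    Finset.sum_sub_distrib _ _
  rw [hsplit, hsplit2, q1, q2, hb1, hb2]
  have f1 : (if i = l then (1 : ℝ) else 0) = dl i l := rfl
  have f2 : (if j = l then (1 : ℝ) else 0) = dl j l := rfl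
  rw [f1, f2, dl_comm j i, hGs, ← hij, ← hsym]
  generalize (∑ m, Chr G i j m x * G x m k) = X1
  generalize (∑ m, Chr G i k m x * G x m j) = X2
  generalize (∑ m, Chr G j k m x * G x m i) = X3
  generalize (∑ m, Chr G j k m x * Chr G i m l x) = X4
  generalize (∑ m, Chr G i k m x * Chr G j m l x) = X5
  generalize hS : ‖x‖ ^ 2 = S at *
  field_simp
  ring

end Pool.Agent.Helper62.RFn.CYR
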