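import Pool.Agent.Helper64.RFn.GoalsV

/-!
Project RFn, goal LPn: the time `τ` and the last stage.
-/

set_option autoImplicit false

open MeasureTheory Set Matrix

namespace Pool.Agent.Helper62.RFn.LPn

open Pool.Agent.Helper47.RFn Pool.Agent.Helper73.RFn Pool.Agent.Helper64.RFn

theorem e2f_le {n : ℕ} (A θ : MF n) (x : EE n) (B : ℝ) (h : ∀ a b c d, |Ef A θ a b c d x| ≤ B) :
    e2f A θ x ≤ ((n : ℝ) + 1) ^ 4 * B ^ 2 := by
  have h1 : ∀ a b c d, Ef A θ a b c d x ^ 2 ≤ B ^ 2 := fun a b c d => by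
    rw [← sq_abs]
    exact pow_le_pow_left₀ (abs_nonneg _) (h a b c d) 2
  calc e2f A θ x ≤ ∑ _a : Fin (n + 1), ∑ _b : Fin (n + 1), ∑ _c : Fin (n + 1), ∑ _d : Fin (n + 1), B ^ 2 :=
        Finset.sum_le_sum fun a _ => Finset.sum_le_sum fun b _ => Finset.sum_le_sum fun c _ =>
          Finset.sum_le_sum fun d _ => h1 a b c d
    _ = ((n : ℝ) + 1) ^ 4 * B ^ 2 := by
        simp
        ring

theorem pow_small {C1 σ y : ℝ} (hC1 : 1 ≤ C1) (hσ : 0 < σ) (hy : (2 * C1) ^ (2 / σ) ≤ y) :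
    C1 * y ^ (-(σ / 2)) ≤ 1 / 2 := by
  have h0 : 0 < 2 * C1 := by linarith
  have h1 : 0 < (2 * C1) ^ (2 / σ) := Real.rpow_pos_of_pos h0 _
  have hy0 : 0 < y := lt_of_lt_of_le h1 hy
  have h2 : 2 * C1 ≤ y ^ (σ / 2) := by
    have h3 : ((2 * C1) ^ (2 / σ)) ^ (σ / 2) ≤ y ^ (σ / 2) :=
      Real.rpow_le_rpow h1.le hy (by linarith)
    rw [← Real.rpow_mul h0.le] at h3
    have h4 : 2 / σ * (σ / 2) = 1 := by field_simp
    rwa [h4, Real.rpow_one] at h3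
  rw [Real.rpow_neg hy0.le, ← div_eq_mul_inv, div_le_iff₀ (Real.rpow_pos_of_pos hy0 _)]
  linarith

theorem pow_z {C2 σ y z : ℝ} (hC2 : 1 ≤ C2) (hσ : 0 < σ) (hσ1 : σ ≤ 1) (hz : 0 < z)
    (hy : 1 / (C2 * z) ≤ y) : y ^ (-(σ / 2)) ≤ C2 * z ^ (σ / 2) := by
  have h0 : 0 < C2 * z := mul_pos (by linarith) hz
  have h1 : 0 < 1 / (C2 * z) := one_div_pos.mpr h0
  have h2 : y ^ (-(σ / 2)) ≤ (1 / (C2 * z)) ^ (-(σ / 2)) :=
    (Real.rpow_le_rpow_iff_of_neg (lt_of_lt_of_le h1 hy) h1 (by linarith)).mpr hy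
  have h3 : (1 / (C2 * z)) ^ (-(σ / 2)) = (C2 * z) ^ (σ / 2) := by
    rw [one_div, Real.inv_rpow h0.le, Real.rpow_neg h0.le, inv_inv]
  have h4 : (C2 * z) ^ (σ / 2) = C2 ^ (σ / 2) * z ^ (σ / 2) :=
    Real.mul_rpow (by linarith) hz.le
  have h5 : C2 ^ (σ / 2) ≤ C2 := by
    have := Real.rpow_le_rpow_of_exponent_le hC2 (show σ / 2 ≤ 1 by linarith)
    rwa [Real.rpow_one] at this
  rw [h3, h4] at h2
  exact h2.trans (mul_le_mul_of_nonneg_right h5 (Real.rpow_nonneg hz.le _))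

/-- the elementary inequalities of the last stage at one time: `S = T - t`, `W = z ^ (σ/2)`,
`K = C1 C2`, `N = (n+1)^4` -/
theorem final_arith {S Q lam u W K N C e B E : ℝ} (hS : 0 < S) (hQ : 0 < Q) (hu0 : 0 ≤ u)
    (hu : u ≤ 1 / 2) (huK : u ≤ K * W) (hW0 : 0 ≤ W) (hW : W ≤ 1) (hN : 0 ≤ N) (hC : 1 ≤ C)
    (hlam : lam ≤ Q) (hlam2 : (1 - u) * Q ≤ lam) (hm : (1 - u) * Q ≤ 1 / (2 * S))
    (he : e = 4 * N * (K * W) ^ 2) (hs3 : 1 / ((2 + C * e) * S) ≤ Q)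
    (hB : K + C * N * K ^ 2 ≤ B) (hE : |E| ≤ u * Q) :
    |lam - 1 / (2 * S)| ≤ B * W / S ∧ |E| ≤ B * W / S := by
  have he0 : 0 ≤ e := by rw [he]; positivity
  have hCe : 0 ≤ C * e := mul_nonneg (by linarith) he0
  have hQS : Q * S ≤ (1 + 2 * u) / 2 := by
    have h1 : (1 - u) * Q * (2 * S) ≤ 1 := by
      rw [le_div_iff₀ (by linarith)] at hm
      exact hm
    have h2 : 0 < Q * S := mul_pos hQ hS
    nlinarith [mul_nonneg hu0 h2.le]
  have hQS1 : Q * S ≤ 1 := by linarith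
  have hKB : K ≤ B := by
    have : 0 ≤ C * N * K ^ 2 := by positivity
    linarith
  have hup : lam * S - 1 / 2 ≤ B * W := by
    have h1 : lam * S ≤ Q * S := mul_le_mul_of_nonneg_right hlam hS.le
    have h2 : K * W ≤ B * W := mul_le_mul_of_nonneg_right hKB hW0
    linarith
  have hlo : -(B * W) ≤ lam * S - 1 / 2 := by
    have h1 : 1 ≤ Q * S * (2 + C * e) := by
      rw [div_le_iff₀ (mul_pos (by linarith) hS)] at hs3
      linarith [hs3]
    have h2 : (1 - C * e / 2) / 2 ≤ Q * S := by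
      have h3 : (1 - C * e / 2) / 2 * (2 + C * e) ≤ Q * S * (2 + C * e) := by
        nlinarith [mul_nonneg hCe hCe]
      exact le_of_mul_le_mul_right h3 (by linarith)
    have h4 : (1 - u) * ((1 - C * e / 2) / 2) ≤ (1 - u) * (Q * S) :=
      mul_le_mul_of_nonneg_left h2 (by linarith)
    have h5 : (1 - u) * Q * S ≤ lam * S := mul_le_mul_of_nonneg_right hlam2 hS.le
    have h6 : C * e / 4 ≤ C * N * K ^ 2 * W := by
      have h7 : C * e / 4 = C * N * K ^ 2 * W * W := by rw [he]; ring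
      rw [h7]
      exact mul_le_of_le_one_right (by positivity) hW
    have h8 : (K + C * N * K ^ 2) * W ≤ B * W := mul_le_mul_of_nonneg_right hB hW0
    have h9 : 0 ≤ u * (C * e) := mul_nonneg hu0 hCe
    nlinarith
  have hE2 : |E| * S ≤ B * W := by
    have h1 : |E| * S ≤ u * Q * S := mul_le_mul_of_nonneg_right hE hS.le
    have h2 : u * (Q * S) ≤ u * 1 := mul_le_mul_of_nonneg_left hQS1 hu0
    have h3 : K * W ≤ B * W := mul_le_mul_of_nonneg_right hKB hW0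
    nlinarith
  constructor
  · have h1 : lam - 1 / (2 * S) = (lam * S - 1 / 2) / S := by
      field_simp
    rw [h1, abs_div, abs_of_pos hS]
    exact div_le_div_of_nonneg_right (abs_le.mpr ⟨hlo, hup⟩) hS.le
  · rw [le_div_iff₀ hS]
    exact hE2

theorem core (hQCT : QCTn) (n : ℕ) (C σ : ℝ) (hn : 4 ≤ n) (hC : 1 ≤ C) (hσ : 0 < σ) (hσ1 : σ ≤ 1)
    (C1 : ℝ) (hC1 : 1 ≤ C1)
    (One : ∀ (T l0 : ℝ) (A θ : ℝ → MF n), 0 < T → 0 < l0 → FFlow (Set.Ico 0 T) A θ →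
      Good T l0 C σ A θ → ∀ t Q, 0 < t → t < T → (∀ x, x ≠ 0 → lamf (A t) (θ t) x ≤ Q) →
      (∃ p, p ≠ 0 ∧ lamf (A t) (θ t) p = Q) → C1 ≤ t * Q →
      (∀ x, x ≠ 0 → (1 - C1 * (t * Q) ^ (-(σ / 2))) * Q ≤ lamf (A t) (θ t) x
        ∧ ∀ a b c d, |Ef (A t) (θ t) a b c d x| ≤ C1 * (t * Q) ^ (-(σ / 2)) * Q)
      ∧ ∀ x y : EE n, ‖x‖ = 1 → ‖y‖ = 1 → gdist (gOf (θ t)) x y ≤ C1 / Real.sqrt Q)
    (A0 C3 C2 C' : ℝ) (hA0a : 2 * C1 ≤ A0) (hA0b : 2 * (2 * C1) ^ (2 / σ) ≤ A0) (hC3 : C3 = 2 + C * C)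
    (hC2 : C2 = C3 / 2) (h1C' : A0 ≤ C') (h2C' : C3 * A0 ≤ C')
    (h3C' : C1 * C2 + C * ((n : ℝ) + 1) ^ 4 * (C1 * C2) ^ 2 ≤ C') (h4C' : C1 ≤ C')
    (T l0 : ℝ) (A θ : ℝ → MF n) (hT : 0 < T) (hl0 : 0 < l0) (hF : FFlow (Set.Ico 0 T) A θ)
    (hG : Good T l0 C σ A θ) (hB : Blow T A θ) : ∃ τ, Last T C' σ τ A θ := by
  obtain ⟨Q, hQc, hQm⟩ := hQCT n T A θ hT hF
  have hQle : ∀ t, 0 ≤ t → t < T → ∀ x, x ≠ 0 → lamf (A t) (θ t) x ≤ Q t := fun t h0 h1 => (hQm t h0 h1).1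
  have hQat : ∀ t, 0 ≤ t → t < T → ∃ p, p ≠ 0 ∧ lamf (A t) (θ t) p = Q t := fun t h0 h1 => (hQm t h0 h1).2
  have hQpos : ∀ t, 0 ≤ t → t < T → 0 < Q t := by
    intro t h0 h1
    obtain ⟨p, hp, hpQ⟩ := hQat t h0 h1
    have := (hG.p1 t h0 h1 p hp).1
    linarith
  have hC3pos : 0 < C3 := by rw [hC3]; nlinarith
  have hC3ge : 2 ≤ C3 := by rw [hC3]; nlinarith
  have hC2ge : 1 ≤ C2 := by rw [hC2]; linarith
  have hA0pos : 0 < A0 := by linarith
  -- (a)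
  have ha : ∀ t, 0 < t → t < T → 1 / (C3 * (T - t)) ≤ Q t := by
    intro t h0 h1
    have := hG.s3 t (Q t) C h0 h1 (hQpos t h0.le h1) (by linarith) (hQle t h0.le h1)
      (fun r hr1 hr2 x hx => hG.p2 r (lt_of_lt_of_le h0 hr1) hr2 x hx) hB
    rw [hC3]
    exact this
  have ha' : ∀ t, 0 < t → t < T → 1 ≤ C3 * (T - t) * Q t := by
    intro t h0 h1
    have h2 := ha t h0 h1
    rw [div_le_iff₀ (mul_pos hC3pos (by linarith))] at h2
    linarith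
  -- the time τ
  obtain ⟨τ, hτ0, hτT, hτQ, hτb⟩ : ∃ τ, 0 < τ ∧ τ < T ∧ τ * Q τ = A0 ∧ ∀ t, 0 ≤ t → t < τ → t * Q t < A0 := by
    have hqc : ContinuousOn (fun t => t * Q t) (Ico 0 T) := continuousOn_id.mul hQc
    set T1 : ℝ := A0 * C3 * T / (1 + A0 * C3) with hT1
    have hAC : 0 < A0 * C3 := mul_pos hA0pos hC3pos
    have hT1pos : 0 < T1 := by rw [hT1]; positivity
    have hT1T : T1 < T := by
      rw [hT1, div_lt_iff₀ (by linarith)]
      nlinarith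
    have hT1q : A0 ≤ T1 * Q T1 := by
      have h2 := ha' T1 hT1pos hT1T
      have h3 : T1 = A0 * C3 * (T - T1) := by
        have hne : 1 + A0 * C3 ≠ 0 := by linarith
        have h6 : T1 * (1 + A0 * C3) = A0 * C3 * T := by
          rw [hT1, div_mul_cancel₀ _ hne]
        linarith
      have h4 : A0 * 1 ≤ A0 * (C3 * (T - T1) * Q T1) := mul_le_mul_of_nonneg_left h2 hA0pos.le
      have h5 : A0 * (C3 * (T - T1) * Q T1) = T1 * Q T1 := by
        have h7 : A0 * (C3 * (T - T1) * Q T1) = (A0 * C3 * (T - T1)) * Q T1 := by ring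
        rw [h7, ← h3]
      linarith
    have hsub : Icc 0 T1 ⊆ Ico 0 T := fun t ht => ⟨ht.1, lt_of_le_of_lt ht.2 hT1T⟩
    have hcl : IsClosed {t ∈ Icc 0 T1 | A0 ≤ t * Q t} :=
      isClosed_Icc.isClosed_le continuousOn_const (hqc.mono hsub)
    have hcomp : IsCompact {t ∈ Icc 0 T1 | A0 ≤ t * Q t} :=
      isCompact_Icc.of_isClosed_subset hcl (fun t ht => ht.1)
    obtain ⟨τ, hτm, hτl⟩ := hcomp.exists_isLeast ⟨T1, ⟨hT1pos.le, le_refl _⟩, hT1q⟩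
    have hτ0' : τ ≠ 0 := by
      intro h0
      have := hτm.2
      rw [h0, zero_mul] at this
      linarith
    have hτ0 : 0 < τ := lt_of_le_of_ne hτm.1.1 (Ne.symm hτ0')
    have hτT : τ < T := lt_of_le_of_lt hτm.1.2 hT1T
    refine ⟨τ, hτ0, hτT, ?_, ?_⟩
    · have hc : ContinuousOn (fun t => t * Q t) (Icc 0 τ) :=
        hqc.mono fun t ht => ⟨ht.1, lt_of_le_of_lt ht.2 hτT⟩
      have hmem : A0 ∈ Icc ((fun t => t * Q t) 0) ((fun t => t * Q t) τ) :=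
        ⟨by simp only [zero_mul]; exact hA0pos.le, hτm.2⟩
      obtain ⟨t, ht, hte⟩ := intermediate_value_Icc hτ0.le hc hmem
      have hte' : t * Q t = A0 := hte
      have h1 : τ ≤ t := hτl ⟨⟨ht.1, ht.2.trans hτm.1.2⟩, hte'.ge⟩
      have h2 : t = τ := le_antisymm ht.2 h1
      rw [← h2]
      exact hte'
    · intro t h0 h1
      by_contra hcon
      push Not at hcon
      have h2 : τ ≤ t := hτl ⟨⟨h0, h1.le.trans hτm.1.2⟩, hcon⟩
      linarith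
  have hQτ := hQpos τ hτ0.le hτT
  -- OneStmt at τ
  have hOτ := One T l0 A θ hT hl0 hF hG τ (Q τ) hτ0 hτT (hQle τ hτ0.le hτT) (hQat τ hτ0.le hτT)
    (by rw [hτQ]; linarith)
  rw [hτQ] at hOτ
  have hAu : C1 * A0 ^ (-(σ / 2)) ≤ 1 / 2 := by
    refine pow_small hC1 hσ ?_
    have : 0 < (2 * C1) ^ (2 / σ) := Real.rpow_pos_of_pos (by linarith) _
    linarith
  have hlamτ : ∀ x, x ≠ 0 → Q τ / 2 ≤ lamf (A τ) (θ τ) x := by
    intro x hx
    have h1 := (hOτ.1 x hx).1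
    have h2 : 1 / 2 * Q τ ≤ (1 - C1 * A0 ^ (-(σ / 2))) * Q τ :=
      mul_le_mul_of_nonneg_right (by linarith) hQτ.le
    linarith
  obtain ⟨hmτ, hmτ2⟩ := hG.s2 τ (Q τ / 2) hτ0 hτT (by linarith) hlamτ
  have hlen2 : 2 * (T - τ) ≤ τ := by
    have h1 : 0 < T - τ := by linarith
    rw [le_div_iff₀ (by linarith)] at hmτ2
    -- Q τ (T - τ) ≤ 1, τ Q τ = A0 ≥ 2
    have h2 : Q τ * (T - τ) ≤ 1 := by linarith
    have h3 : Q τ * (2 * (T - τ)) ≤ Q τ * τ := by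
      have : Q τ * τ = A0 := by rw [mul_comm]; exact hτQ
      rw [this]
      linarith
    exact le_of_mul_le_mul_left h3 hQτ
  -- later times
  have hlate : ∀ t, τ ≤ t → t < T → 0 < t ∧ A0 / 2 ≤ t * Q t := by
    intro t h0 h1
    have ht0 : 0 < t := lt_of_lt_of_le hτ0 h0
    obtain ⟨p, hp, hpQ⟩ := hQat t ht0.le h1
    have h2 := hmτ t h0 h1 p hp
    refine ⟨ht0, ?_⟩
    have h3 : Q τ / 2 ≤ Q t := by linarith
    have h4 : τ * (Q τ / 2) ≤ t * Q t :=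
      mul_le_mul h0 h3 (by linarith) ht0.le
    have h5 : τ * (Q τ / 2) = A0 / 2 := by rw [← hτQ]; ring
    linarith
  -- one time t in [τ,T)
  have hOne : ∀ t, τ ≤ t → t < T → ∃ u, 0 ≤ u ∧ u ≤ 1 / 2 ∧
      u ≤ C1 * C2 * (2 * (T - t) / τ) ^ (σ / 2) ∧
      ∀ x, x ≠ 0 → (1 - u) * Q t ≤ lamf (A t) (θ t) x ∧
        ∀ a b c d, |Ef (A t) (θ t) a b c d x| ≤ u * Q t := by
    intro t h0 h1
    obtain ⟨ht0, hy⟩ := hlate t h0 h1
    have hS : 0 < T - t := by linarith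
    have hO := One T l0 A θ hT hl0 hF hG t (Q t) ht0 h1 (hQle t ht0.le h1) (hQat t ht0.le h1) (by linarith)
    have hy0 : 0 < t * Q t := mul_pos ht0 (hQpos t ht0.le h1)
    refine ⟨C1 * (t * Q t) ^ (-(σ / 2)), ?_, ?_, ?_, hO.1⟩
    · exact mul_nonneg (by linarith) (Real.rpow_nonneg hy0.le _)
    · exact pow_small hC1 hσ (by linarith)
    · have hz : 0 < 2 * (T - t) / τ := div_pos (by linarith) hτ0
      have h2 : 1 / (C2 * (2 * (T - t) / τ)) ≤ t * Q t := by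
        have h3 := ha' t ht0 h1
        have h4 : C2 * (2 * (T - t) / τ) = C3 * (T - t) / τ := by rw [hC2]; ring
        rw [h4, div_le_iff₀ (div_pos (mul_pos hC3pos hS) hτ0)]
        have h5 : t * Q t * (C3 * (T - t) / τ) = (C3 * (T - t) * Q t) * (t / τ) := by ring
        rw [h5]
        have h6 : 1 ≤ t / τ := by rw [le_div_iff₀ hτ0]; linarith
        calc (1 : ℝ) = 1 * 1 := by ring
          _ ≤ (C3 * (T - t) * Q t) * (t / τ) := mul_le_mul h3 h6 zero_le_one (by linarith)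
      have h7 := pow_z hC2ge hσ hσ1 hz h2
      calc C1 * (t * Q t) ^ (-(σ / 2)) ≤ C1 * (C2 * (2 * (T - t) / τ) ^ (σ / 2)) :=
            mul_le_mul_of_nonneg_left h7 (by linarith)
        _ = C1 * C2 * (2 * (T - t) / τ) ^ (σ / 2) := by ring
  have hC'pos : 0 < C' := by linarith
  refine ⟨τ, ⟨hτ0, hτT⟩, ⟨?_, hlen2⟩, ?_, ?_, ?_⟩
  · -- τ / C' ≤ T - τ
    rw [div_le_iff₀ hC'pos]
    have h1 := ha' τ hτ0 hτT
    have hS : 0 < T - τ := by linarith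
    have h2 : τ * 1 ≤ τ * (C3 * (T - τ) * Q τ) := mul_le_mul_of_nonneg_left h1 hτ0.le
    have h3 : τ * (C3 * (T - τ) * Q τ) = (T - τ) * (C3 * A0) := by rw [← hτQ]; ring
    have h4 : (T - τ) * (C3 * A0) ≤ (T - τ) * C' := mul_le_mul_of_nonneg_left h2C' hS.le
    linarith
  · intro t h0 h1 x hx
    have htT : t < T := lt_of_le_of_lt h1 hτT
    have h2 : t * lamf (A t) (θ t) x ≤ t * Q t := mul_le_mul_of_nonneg_left (hQle t h0.le htT x hx) h0.le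
    have h3 : t * Q t ≤ A0 := by
      rcases h1.lt_or_eq with h4 | h4
      · exact (hτb t h0.le h4).le
      · rw [h4]; exact hτQ.le
    linarith
  · intro t h0 h1 x hx
    obtain ⟨ht0, hy⟩ := hlate t h0 h1
    have hS : 0 < T - t := by linarith
    obtain ⟨u, hu0, hu, huK, hut⟩ := hOne t h0 h1
    have hz0 : 0 < 2 * (T - t) / τ := div_pos (by linarith) hτ0
    have hz1 : 2 * (T - t) / τ ≤ 1 := by
      rw [div_le_one hτ0]
      linarith
    have hW0 : 0 ≤ (2 * (T - t) / τ) ^ (σ / 2) := Real.rpow_nonneg hz0.le _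
    have hW1 : (2 * (T - t) / τ) ^ (σ / 2) ≤ 1 := Real.rpow_le_one hz0.le hz1 (by linarith)
    have hK : 0 ≤ C1 * C2 := mul_nonneg (by linarith) (by linarith)
    have hm := (hG.s2 t ((1 - u) * Q t) ht0 h1 (mul_pos (by linarith) (hQpos t ht0.le h1))
      (fun x hx => (hut x hx).1)).2
    set W := (2 * (T - t) / τ) ^ (σ / 2) with hWdef
    have he2 : ∀ r, t ≤ r → r < T → ∀ y, y ≠ 0 → e2f (A r) (θ r) y
        ≤ 4 * ((n : ℝ) + 1) ^ 4 * (C1 * C2 * W) ^ 2 * lamf (A r) (θ r) y ^ 2 := by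
      intro r hr1 hr2 y hy'
      obtain ⟨v, hv0, hv, hvK, hvt⟩ := hOne r (h0.trans hr1) hr2
      have hr0 : 0 < r := lt_of_lt_of_le ht0 hr1
      have hQr := hQpos r hr0.le hr2
      have h2 : v ≤ C1 * C2 * W := by
        refine hvK.trans (mul_le_mul_of_nonneg_left ?_ hK)
        rw [hWdef]
        refine Real.rpow_le_rpow (div_nonneg (by linarith) hτ0.le) ?_ (by linarith)
        exact div_le_div_of_nonneg_right (by linarith) hτ0.le
      have h3 : Q r ≤ 2 * lamf (A r) (θ r) y := by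
        have h4 := (hvt y hy').1
        have h5 : 1 / 2 * Q r ≤ (1 - v) * Q r := mul_le_mul_of_nonneg_right (by linarith) hQr.le
        linarith
      have h6 : ∀ a b c d, |Ef (A r) (θ r) a b c d y| ≤ C1 * C2 * W * (2 * lamf (A r) (θ r) y) := by
        intro a b c d
        exact ((hvt y hy').2 a b c d).trans (mul_le_mul h2 h3 hQr.le (mul_nonneg hK hW0))
      have h7 := e2f_le (A r) (θ r) y _ h6
      calc e2f (A r) (θ r) y ≤ ((n : ℝ) + 1) ^ 4 * (C1 * C2 * W * (2 * lamf (A r) (θ r) y)) ^ 2 := h7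
        _ = _ := by ring
    have he0 : 0 ≤ 4 * ((n : ℝ) + 1) ^ 4 * (C1 * C2 * W) ^ 2 := by positivity
    have hs3 := hG.s3 t (Q t) _ ht0 h1 (hQpos t ht0.le h1) he0 (hQle t ht0.le h1) he2 hB
    have hfin : ∀ E : ℝ, |E| ≤ u * Q t →
        |lamf (A t) (θ t) x - 1 / (2 * (T - t))| ≤ C' * W / (T - t) ∧ |E| ≤ C' * W / (T - t) := by
      intro E hE
      exact final_arith hS (hQpos t ht0.le h1) hu0 hu huK hW0 hW1 (by positivity) hC
        (hQle t ht0.le h1 x hx) (hut x hx).1 hm rfl hs3 h3C' hE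
    exact ⟨(hfin 0 (by rw [abs_zero]; exact mul_nonneg hu0 (hQpos t ht0.le h1).le)).1,
      fun a b c d => (hfin _ ((hut x hx).2 a b c d)).2⟩
  · intro x y hx hy
    have h1 := hOτ.2 x y hx hy
    have h2 : 1 / τ ≤ Q τ := by
      rw [div_le_iff₀ hτ0, mul_comm, hτQ]
      linarith
    have h3 : 1 / Real.sqrt (Q τ) ≤ Real.sqrt τ := by
      have h4 : Real.sqrt (1 / τ) ≤ Real.sqrt (Q τ) := Real.sqrt_le_sqrt h2
      rw [Real.sqrt_div zero_le_one, Real.sqrt_one, div_le_iff₀ (Real.sqrt_pos.mpr hτ0)] at h4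
      rw [div_le_iff₀ (Real.sqrt_pos.mpr hQτ)]
      linarith
    calc gdist (gOf (θ τ)) x y ≤ C1 / Real.sqrt (Q τ) := h1
      _ = C1 * (1 / Real.sqrt (Q τ)) := by ring
      _ ≤ C' * Real.sqrt τ := mul_le_mul h4C' h3 (by positivity) hC'pos.le

/-- Goal LPn. -/
theorem lpn (hQCT : QCTn) : LPn := by
  intro hOne n C σ hn hC hσ hσ1
  obtain ⟨C1, hC1, One⟩ := hOne n C σ hn hC hσ hσ1
  set A0 : ℝ := 2 * max C1 ((2 * C1) ^ (2 / σ)) with hA0
  set C3 : ℝ := 2 + C * C with hC3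
  set C2 : ℝ := C3 / 2 with hC2
  have hm1 : C1 ≤ max C1 ((2 * C1) ^ (2 / σ)) := le_max_left _ _
  have hm2 : (2 * C1) ^ (2 / σ) ≤ max C1 ((2 * C1) ^ (2 / σ)) := le_max_right _ _
  set D : ℝ := C1 * C2 + C * ((n : ℝ) + 1) ^ 4 * (C1 * C2) ^ 2 with hD
  refine ⟨max (max A0 (C3 * A0)) (max D C1), ?_, ?_⟩
  · exact hC1.trans ((le_max_right D C1).trans (le_max_right _ _))
  · intro T l0 A θ hT hl0 hF hG hB
    exact core hQCT n C σ hn hC hσ hσ1 C1 hC1 One A0 C3 C2 _ (by linarith) (by linarith) rfl rfl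
      ((le_max_left _ _).trans (le_max_left _ _)) ((le_max_right _ _).trans (le_max_left _ _))
      ((le_max_left _ _).trans (le_max_right _ _)) ((le_max_right _ _).trans (le_max_right _ _))
      T l0 A θ hT hl0 hF hG hB

end Pool.Agent.Helper62.RFn.LPn
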