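import Pool.Agent.Helper47.RFn.GoalsE

/-!
Project RFn, packet FLB: the bundle of a flow.
-/

set_option autoImplicit false

open Finset

namespace Pool.Agent.Helper47.RFn

namespace FLBp

variable {n : ℕ} {T : ℝ}

theorem js_sum {ι : Type} (s : Finset ι) {u : ι → ℝ → EE n → ℝ} (hu : ∀ a ∈ s, JS T (u a)) :
    JS T (fun t x => ∑ a ∈ s, u a t x) := by
  refine ⟨ContDiffOn.sum fun a ha => (hu a ha).cd, fun t h0 h1 r x hr => ?_⟩
  refine sum_congr rfl fun a ha => ?_
  exact (hu a ha).hom t h0 h1 r x hr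

theorem js_cmul {u : ℝ → EE n → ℝ} (c : ℝ) (hu : JS T u) : JS T (fun t x => c * u t x) := by
  refine ⟨contDiffOn_const.mul hu.cd, fun t h0 h1 r x hr => ?_⟩
  show c * u t (r • x) = c * u t x
  rw [hu.hom t h0 h1 r x hr]

theorem ev_ite (M : Mod n T) (z : M.Z) (t : TI T) (a b : Ix n) :
    M.ev z t (if a = b then 1 else 0) = (1 : Matrix (Ix n) (Ix n) ℝ) a b := by
  rw [Matrix.one_apply]
  split
  · exact map_one _
  · exact map_zero _

theorem ev_ite' (M : Mod n T) (z : M.Z) (t : TI T) (a b : Ix n) :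
    M.ev z t (if a = b then 1 else 0) = (if a = b then (1 : ℝ) else 0) := by
  split
  · exact map_one _
  · exact map_zero _

end FLBp

open FLBp

theorem goal_FLB (hEM : Goal_EM) (hLNK : Goal_LNK) (hE0 : Goal_E0) (_hFRA : Goal_FRA) (hPAIR : Goal_PAIR)
    (_hINSB : Goal_INSB) (hYOM : Goal_YOM) (hVIH : Goal_VIH) (_hFRF : Goal_FRF) : Goal_FLB := by
  intro n T hT M hM I A θ hI hF hA ht
  obtain ⟨em1, em2, em3, em4, em5, em6⟩ := hEM n T hT M hM
  obtain ⟨l1, l2, l3, l4, l5, l6⟩ := hLNK n T hT M hM A θ hA ht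
  have hP := hM.ax
  obtain ⟨e1, e2, e3, -⟩ := hE0 n T M.toBA hP
  have hev : ∀ v : ℝ → EE n → ℝ, JS T v → ∀ z (t : TI T), M.ev z t (M.em v) = v t (M.pt z) :=
    fun v hv => (em1 v hv).2
  have hmem : ∀ t : ℝ, 0 < t → t < T → t ∈ I := fun t h0 h1 => hI ⟨h0, h1⟩
  have hinv : ∀ t : ℝ, 0 < t → t < T → ∀ x, A t x * θ t x = 1 := fun t h0 h1 x => hF.inv t (hmem t h0 h1) x
  have hinv' : ∀ t : ℝ, 0 < t → t < T → ∀ x, θ t x * A t x = 1 := fun t h0 h1 x =>
    mul_eq_one_comm.1 (hinv t h0 h1 x)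
  have hAev : ∀ a i z (t : TI T), M.ev z t (M.emM A a i) = A t (M.pt z) a i := fun a i z t => hev _ (hA a i) z t
  have htev : ∀ i a z (t : TI T), M.ev z t (M.emM θ i a) = θ t (M.pt z) i a := fun i a z t => hev _ (ht i a) z t
  have hRcev : ∀ a b z (t : TI T), M.ev z t (FR.Rc M.e M.n0 (M.emM A) (M.emM θ) a b)
      = Rcf (A t) (θ t) a b (M.pt z) := by
    intro a b z t
    rw [(l5 a b).2]
    exact hev _ (l5 a b).1 z t
  have hnfev : ∀ a z (t : TI T), M.ev z t (FR.nf M.n0 (M.emM A) a) = nfc (A t) a (M.pt z) := by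
    intro a z t
    rw [(l1 a).2]
    exact hev _ (l1 a).1 z t
  have hRev : ∀ a b c d z (t : TI T), M.ev z t (FR.R M.e M.n0 (M.emM A) (M.emM θ) a b c d)
      = Rf (A t) (θ t) a b c d (M.pt z) := by
    intro a b c d z t
    rw [(l4 a b c d).2]
    exact hev _ (l4 a b c d).1 z t
  have hAt : ∀ a b, ∑ i, M.emM A a i * M.emM θ i b = if a = b then 1 else 0 := by
    intro a b
    apply hP.ext
    intro z t
    have h1 := ev_ite M z t a b
    refine Eq.trans ?_ h1.symm
    rw [map_sum, ← hinv t t.2.1 t.2.2 (M.pt z), Matrix.mul_apply]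
    refine sum_congr rfl fun i _ => ?_
    rw [map_mul, hAev, htev]
  have htA : ∀ i j, ∑ a, M.emM θ i a * M.emM A a j = if i = j then 1 else 0 := by
    intro a b
    apply hP.ext
    intro z t
    have h1 := ev_ite M z t a b
    refine Eq.trans ?_ h1.symm
    rw [map_sum, ← hinv' t t.2.1 t.2.2 (M.pt z), Matrix.mul_apply]
    refine sum_congr rfl fun i _ => ?_
    rw [map_mul, hAev, htev]
  have hnA : ∀ a, ∑ i, M.emM A a i * M.n0 i = ∑ i, M.emM θ i a * M.n0 i := by
    intro a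
    apply hP.ext
    intro z t
    have h1 := hF.nA t (hmem t t.2.1 t.2.2) (M.pt z) a
    have hn : ∀ i, nn i (M.pt z) = M.pt z i := by
      intro i
      unfold nn
      rw [hM.ptn z, div_one]
    rw [map_sum, map_sum]
    refine Eq.trans (Eq.trans ?_ h1) ?_
    · refine sum_congr rfl fun i _ => ?_
      rw [map_mul, hAev, hM.nev, hn]
    · refine sum_congr rfl fun i _ => ?_
      rw [map_mul, htev, hM.nev, hn]
  have hFrH : FrameHyp M.e M.n0 (M.emM A) (M.emM θ) := ⟨e1, e2, hP.nn, e3, hAt, htA, hnA⟩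
  obtain ⟨-, pr2, pr3⟩ := hPAIR n M.B M.e M.n0 (M.emM A) (M.emM θ) hFrH
  have hDA : ∀ a i, M.Dt (M.emM A a i)
      = ∑ b, FR.Rc M.e M.n0 (M.emM A) (M.emM θ) a b * M.emM A b i := by
    intro a i
    apply hP.ext
    intro z t
    have h1 := em4 (fun t x => A t x a i) (fun t x => ∑ b, Rcf (A t) (θ t) a b x * A t x b i) (hA a i)
      (by
        intro t x h0 h1 hx
        have h2 := (hF.flA a i).der [] x hx t (hmem t h0 h1)
        have hI' : I ∈ nhds t := Filter.mem_of_superset (isOpen_Ioo.mem_nhds ⟨h0, h1⟩) hI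
        exact h2.hasDerivAt hI') z t
    refine Eq.trans h1 ?_
    rw [map_sum]
    refine sum_congr rfl fun b _ => ?_
    rw [map_mul, hAev, hRcev]
  have hFH : M.FH (M.emM A) (M.emM θ) (FR.Rc M.e M.n0 (M.emM A) (M.emM θ)) :=
    { XA := fun a i => (em1 _ (hA a i)).1
      Xt := fun i a => (em1 _ (ht i a)).1
      XS := by
        intro a b
        rw [(l5 a b).2]
        exact (em1 _ (l5 a b).1).1
      At := hAt
      tA := htA
      nA := hnA
      DA := hDA
      Ssy := pr2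
      nS := pr3 }
  obtain ⟨hFull, -, hlam, -, hRF, he2⟩ := hYOM n T M.toBA hP _ _ _ hFH
  have hlamev : ∀ z (t : TI T), M.ev z t (M.lamb (M.emM A) (M.emM θ) (FR.Rc M.e M.n0 (M.emM A) (M.emM θ)))
      = lamf (A t) (θ t) (M.pt z) := by
    intro z t
    rw [hlam, map_smul, map_sum]
    unfold lamf
    rw [smul_eq_mul]
    refine congrArg _ (sum_congr rfl fun a _ => ?_)
    exact hRcev a a z t
  have hlamJS : JS T (fun t => lamf (A t) (θ t)) :=
    js_cmul (1 / (n : ℝ)) (js_sum univ fun a _ => (l5 a a).1)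
  have hlamem : M.lamb (M.emM A) (M.emM θ) (FR.Rc M.e M.n0 (M.emM A) (M.emM θ))
      = M.em (fun t => lamf (A t) (θ t)) := em2 _ _ hlamJS hlamev
  -- gradient and Laplacian of functions
  have hFd : ∀ (v : ℝ → EE n → ℝ) (_ : JS T v) a z (t : TI T),
      M.ev z t (FR.Fd M.e (M.emM A) a (M.em v)) = Fdc (A t) a (v t) (M.pt z) := by
    intro v hv a z t
    rw [(l6 a v hv).2]
    exact hev _ (l6 a v hv).1 z t
  have hgg : ∀ (v w : ℝ → EE n → ℝ), JS T v → JS T w → ∀ z (t : TI T),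
      M.ev z t ((M.toFB (M.emM A) (M.emM θ) (FR.Rc M.e M.n0 (M.emM A) (M.emM θ))).gg (M.em v) (M.em w))
        = ggf (A t) (v t) (w t) (M.pt z) := by
    intro v w hv hw z t
    have h1 := (hVIH n T M.toBA hP _ _ _ hFH (M.em v) (M.em w) (em1 v hv).1 (em1 w hw).1).2.2.1
    rw [h1]
    refine Eq.trans (map_sum (M.ev z t) _ _) ?_
    unfold ggf
    refine sum_congr rfl fun b _ => ?_
    rw [map_mul, hFd v hv, hFd w hw]
  have hlap : ∀ (v : ℝ → EE n → ℝ), JS T v → ∀ z (t : TI T),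
      M.ev z t ((M.toFB (M.emM A) (M.emM θ) (FR.Rc M.e M.n0 (M.emM A) (M.emM θ))).Lap (M.em v))
        = Lapf (A t) (θ t) (v t) (M.pt z) := by
    intro v hv z t
    have h1 := (hVIH n T M.toBA hP _ _ _ hFH (M.em v) (M.em v) (em1 v hv).1 (em1 v hv).1).2.2.2
    rw [h1]
    refine Eq.trans (map_sub (M.ev z t) _ _) ?_
    unfold Lapf
    refine congrArg₂ (fun a b : ℝ => a - b) ?_ ?_
    · refine Eq.trans (map_sum (M.ev z t) _ _) ?_
      refine sum_congr rfl fun b _ => ?_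
      rw [(l6 b v hv).2]
      exact hFd _ (l6 b v hv).1 b z t
    · refine Eq.trans (map_sum (M.ev z t) _ _) ?_
      refine sum_congr rfl fun b _ => ?_
      rw [map_sum]
      refine sum_congr rfl fun c _ => ?_
      rw [map_mul, hFd v hv, (l3 b b c).2]
      exact congrArg (fun r : ℝ => r * Fdc (A t) c (v t) (M.pt z)) (hev _ (l3 b b c).1 z t)
  refine ⟨hFH, hFull, hRF fun _ _ => rfl, ?_, ?_, ?_, ?_⟩
  · intro z t
    refine ⟨hlamev z t, ?_, ?_⟩
    · show M.ev z t ((M.toFB (M.emM A) (M.emM θ) (FR.Rc M.e M.n0 (M.emM A) (M.emM θ))).e2) = _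
      rw [he2]
      unfold e2f
      simp only [map_sum, map_pow]
      refine sum_congr rfl fun a _ => sum_congr rfl fun b _ => sum_congr rfl fun c _ => sum_congr rfl fun d _ => ?_
      congr 1
      rw [map_sub, map_smul, map_mul, hlamev, hRev]
      have hdl : ∀ a b, M.ev z t (M.dl a b) = (if a = b then (1 : ℝ) else 0) := fun a b => ev_ite' M z t a b
      simp only [map_sub, map_mul, hnfev, hdl, smul_eq_mul]
      rfl
    · show M.ev z t ((M.toFB (M.emM A) (M.emM θ) (FR.Rc M.e M.n0 (M.emM A) (M.emM θ))).gg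
        (M.lamb (M.emM A) (M.emM θ) (FR.Rc M.e M.n0 (M.emM A) (M.emM θ)))
        (M.lamb (M.emM A) (M.emM θ) (FR.Rc M.e M.n0 (M.emM A) (M.emM θ)))) = _
      rw [hlamem]
      exact hgg _ _ hlamJS hlamJS z t
  · intro z t a b c d
    show M.ev z t (∑ i, ∑ j, ∑ k, ∑ l, M.u a i * M.u b j * M.u c k * M.u d l *
      FR.R M.e M.n0 (M.emM A) (M.emM θ) i j k l) = _
    simp only [map_sum, map_mul, hM.uev, hRev]
  · intro z t a
    show M.ev z t (∑ b, M.u a b * FR.nf M.n0 (M.emM A) b) = _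
    simp only [map_sum, map_mul, hM.uev, hnfev]
  · intro v w hv hw
    exact ⟨(em1 v hv).1.2, fun z t => ⟨hgg v w hv hw z t, hlap v hv z t⟩⟩

end Pool.Agent.Helper47.RFn
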