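import Pool.Agent.Helper47.RFn.Alg

/-!
# Packet ST of project RFn (helper47): neighbouring parameters
-/

namespace Pool.Agent.Helper47.RFn

open Finset

/-- the arithmetic of the Ricci condition -/
theorem st_arith {ρ x y z : ℝ} (h0 : 0 ≤ ρ) (h1 : ρ ≤ 1) (hx : 1 - ρ / 4 ≤ x) (hy : 1 - ρ / 4 ≤ y)
    (hz : 1 - ρ / 4 ≤ z) {ξ m : ℝ} (hρ : ρ ≤ ξ) (hm : 3 ≤ m) : 1 ≤ x * y * z * (1 + m * ξ) := by
  have hr : 0 ≤ 1 - ρ / 4 := by linarith
  have e1 : (1 - ρ / 4) * (1 - ρ / 4) ≤ x * y := mul_le_mul hx hy hr (hr.trans hx)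
  have e2 : (1 - ρ / 4) * (1 - ρ / 4) * (1 - ρ / 4) ≤ x * y * z :=
    mul_le_mul e1 hz hr ((mul_nonneg hr hr).trans e1)
  have e3 : 1 - 3 * ρ / 4 ≤ (1 - ρ / 4) * (1 - ρ / 4) * (1 - ρ / 4) := by
    nlinarith [mul_nonneg h0 h0, mul_nonneg (mul_nonneg h0 h0) (sub_nonneg.2 h1)]
  have e4 : 1 + 3 * ρ ≤ 1 + m * ξ := by
    have : 3 * ρ ≤ m * ξ := mul_le_mul hm hρ h0 (by linarith)
    linarith
  have e5 : 0 ≤ 1 - 3 * ρ / 4 := by linarith
  have e6 : (1 - 3 * ρ / 4) * (1 + 3 * ρ) ≤ x * y * z * (1 + m * ξ) :=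
    mul_le_mul (e3.trans e2) e4 (by linarith) ((e5.trans e3).trans e2)
  refine le_trans ?_ e6
  nlinarith [mul_nonneg h0 (sub_nonneg.2 h1)]

theorem goal_ST (hLI : Goal_LI) (hLN : Goal_LN) (hWQ : Goal_WQ) (hCB : Goal_CB)
    (hCL : Goal_CL) : Goal_ST := by
  intro n hn Λ P ξ hΛ hP hξ
  obtain ⟨qadd, qsmul, Radd, Rsmul, ladd, lsmul, -, -, RI, lI, -, rqadd, rqsmul, rq1⟩ := hLN n
  obtain ⟨-, -, cI, cadd, csmul, -, cR, cell, -⟩ := hCL n
  have hn4 : (4 : ℝ) ≤ n := by exact_mod_cast hn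
  have hn2 : 2 ≤ n := by omega
  have hn1 : 1 ≤ n := by omega
  have hn0 : (0 : ℝ) < n := by linarith
  set ρ := min 1 ξ with hρ
  have hρ0 : 0 < ρ := lt_min one_pos hξ
  have hρ1 : ρ ≤ 1 := min_le_left _ _
  have hρξ : ρ ≤ ξ := min_le_right _ _
  have hP1 : 0 < 1 - P := by linarith
  set NΛ := 1 + 2 * ((n : ℝ) - 1) * Λ with hNΛ
  have hNΛ0 : 0 < NΛ := by
    have : 0 ≤ 2 * ((n : ℝ) - 1) * Λ := by
      have : 0 ≤ (n : ℝ) - 1 := by linarith
      positivity
    linarith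
  set δ := min (ρ / 4 * (1 - P)) (min (ρ / (8 * n)) (ξ / (2 * (1 + (n : ℝ) ^ 2) * NΛ))) with hδ
  have hδ0 : 0 < δ := by positivity
  refine ⟨δ, hδ0, ?_⟩
  intro a b p a' b' p' ha0 haΛ ha'0 ha'Λ hb0 hb1 hb'0 hb'1 hp0 hpP hp'0 hp'P hda hdb hdp
  have hd1 : δ ≤ ρ / 4 * (1 - P) := min_le_left _ _
  have hd2 : δ ≤ ρ / (8 * n) := (min_le_right _ _).trans (min_le_left _ _)
  have hd3 : δ ≤ ξ / (2 * (1 + (n : ℝ) ^ 2) * NΛ) := (min_le_right _ _).trans (min_le_right _ _)
  intro R hR β hβξ hβ0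
  obtain ⟨hRc, hC, hG⟩ := hR
  change C0 (elli a b R) at hC
  change RicGe p (elli a b R) at hG
  set N := 1 + 2 * ((n : ℝ) - 1) * a with hN
  set N' := 1 + 2 * ((n : ℝ) - 1) * a' with hN'
  set M := 1 + ((n : ℝ) - 2) * b with hM
  set M' := 1 + ((n : ℝ) - 2) * b' with hM'
  have hnn1 : 0 ≤ (n : ℝ) - 1 := by linarith
  have hnn2 : 0 ≤ (n : ℝ) - 2 := by linarith
  have hN1 : 1 ≤ N := by
    have : 0 ≤ 2 * ((n : ℝ) - 1) * a := by positivity
    linarith
  have hN'1 : 1 ≤ N' := by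
    have : 0 ≤ 2 * ((n : ℝ) - 1) * a' := by positivity
    linarith
  have hM1 : 1 ≤ M := by
    have : 0 ≤ ((n : ℝ) - 2) * b := by positivity
    linarith
  have hM'1 : 1 ≤ M' := by
    have : 0 ≤ ((n : ℝ) - 2) * b' := by positivity
    linarith
  have hN'Λ : N' ≤ NΛ := by
    have : 2 * ((n : ℝ) - 1) * a' ≤ 2 * ((n : ℝ) - 1) * Λ :=
      mul_le_mul_of_nonneg_left ha'Λ (by positivity)
    linarith
  have hMn : M ≤ n / 2 := by
    have : ((n : ℝ) - 2) * b ≤ ((n : ℝ) - 2) * (1 / 2) := mul_le_mul_of_nonneg_left hb1 hnn2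
    linarith
  -- the old tensor
  obtain ⟨-, -, -, -, lS, RS, -, -, -, -⟩ := hLI n hn2 a b ha0 hb0 R
  obtain ⟨-, -, -, -, lS', RS', -, -, -, -⟩ := hLI n hn2 a' b' ha'0 hb'0 (R + β • Id4 n)
  rw [← hN] at lS
  rw [← hN'] at lS'
  rw [← hM] at RS
  rw [← hM'] at RS'
  have hlR' : lam (R + β • Id4 n) = lam R + β * ((n : ℝ) - 1) := by
    rw [ladd, lsmul, lI hn1]
  have hR0' : Ric0 (R + β • Id4 n) = Ric0 R := by
    rw [Ric0, Ric0, hlR', Radd, Rsmul, RI, smul_smul, add_smul]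
    abel
  rw [hlR'] at lS'
  rw [hR0'] at RS'
  obtain ⟨hlam, -, hRic0, hRicn, -⟩ := hCB n hn2 _ hC
  have hN0 : 0 < N := by linarith
  have hN'0 : 0 < N' := by linarith
  have hM0 : 0 < M := by linarith
  have hM'0 : 0 < M' := by linarith
  set L := lam R with hL
  have hL0 : 0 ≤ L := by
    have h1 : L = lam (elli a b R) * N := by
      rw [lS]; field_simp
    rw [h1]
    positivity
  have hLS : lam (elli a b R) ≤ L := by
    rw [lS]
    exact div_le_self hL0 hN1
  have hnrm : ∀ v : Fin n → ℝ, 0 ≤ nrm v := fun v => Finset.sum_nonneg fun i _ => sq_nonneg _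
  -- values of the Ricci forms
  have hval : ∀ v, rq (Ric (elli a b R)) v = rq (Ric0 R) v / M + lam (elli a b R) * nrm v := by
    intro v
    have h1 : Ric (elli a b R) = (1 / M) • Ric0 R + lam (elli a b R) • (1 : M2 n) := by
      rw [← RS, Ric0]
      abel
    rw [h1, rqadd, rqsmul, rqsmul, rq1]
    ring
  have hval' : ∀ v, rq (Ric (elli a' b' (R + β • Id4 n))) v =
      rq (Ric0 R) v / M' + lam (elli a' b' (R + β • Id4 n)) * nrm v := by
    intro v
    have h1 : Ric (elli a' b' (R + β • Id4 n)) =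
        (1 / M') • Ric0 R + lam (elli a' b' (R + β • Id4 n)) • (1 : M2 n) := by
      rw [← RS', Ric0]
      abel
    rw [h1, rqadd, rqsmul, rqsmul, rq1]
    ring
  have hr1 : ∀ v, -((n : ℝ) ^ 2 * L) * nrm v ≤ rq (Ric0 R) v := by
    intro v
    have h1 := hRic0 v
    rw [hval] at h1
    have h2 : -(M * (lam (elli a b R) * nrm v)) ≤ rq (Ric0 R) v := by
      have h3 : -(lam (elli a b R) * nrm v) ≤ rq (Ric0 R) v / M := by linarith
      have h4 := mul_le_mul_of_nonneg_left h3 hM0.le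
      rw [mul_div_cancel₀ _ hM0.ne'] at h4
      linarith
    refine le_trans ?_ h2
    have h5 : M * (lam (elli a b R) * nrm v) ≤ (n : ℝ) ^ 2 * (L * nrm v) := by
      refine mul_le_mul (hMn.trans ?_) (mul_le_mul_of_nonneg_right hLS (hnrm v))
        (mul_nonneg hlam (hnrm v)) (by positivity)
      have : (n : ℝ) * 1 ≤ n * n := mul_le_mul_of_nonneg_left (by linarith) hn0.le
      rw [sq]
      linarith
    linarith
  have hr2 : ∀ v, rq (Ric0 R) v ≤ ((n : ℝ) ^ 2 * L) * nrm v := by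
    intro v
    have h1 := hRicn v
    rw [hval] at h1
    have h2 : rq (Ric0 R) v ≤ M * (((n : ℝ) - 1) * (lam (elli a b R) * nrm v)) := by
      have h3 : rq (Ric0 R) v / M ≤ ((n : ℝ) - 1) * (lam (elli a b R) * nrm v) := by linarith
      have h4 := mul_le_mul_of_nonneg_left h3 hM0.le
      rw [mul_div_cancel₀ _ hM0.ne'] at h4
      linarith
    refine h2.trans ?_
    have h5 : M * (((n : ℝ) - 1) * (lam (elli a b R) * nrm v)) ≤
        (n / 2) * ((n : ℝ) * (L * nrm v)) := by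
      refine mul_le_mul hMn ?_ ?_ (by positivity)
      · exact mul_le_mul (by linarith) (mul_le_mul_of_nonneg_right hLS (hnrm v))
          (mul_nonneg hlam (hnrm v)) hn0.le
      · exact mul_nonneg hnn1 (mul_nonneg hlam (hnrm v))
    have h6 : 0 ≤ (n : ℝ) ^ 2 * (L * nrm v) := by
      have := hnrm v
      positivity
    have h7 : (n : ℝ) / 2 * ((n : ℝ) * (L * nrm v)) = (n : ℝ) ^ 2 * (L * nrm v) / 2 := by ring
    rw [h7] at h5
    linarith
  have hsymm : (Ric0 R).IsSymm := (cR R hRc).2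
  have cR' : IsCurv (R + β • Id4 n) := cadd _ _ hRc (csmul _ _ cI)
  -- the quadratic form
  have hqsub : ∀ (S T : T4 n) z w, qf (S - T) z w = qf S z w - qf T z w := by
    intro S T z w
    have : S - T = S + (-1 : ℝ) • T := by
      rw [neg_one_smul, sub_eq_add_neg]
    rw [this, qadd, qsmul]
    ring
  have hq : ∀ z w, qf (elli a b R) z w = qf R z w - 2 * a / N * L * qf (Id4 n) z w -
      2 * b / M * qf (wdg (Ric0 R) 1) z w := by
    intro z w
    rw [elli, hqsub, hqsub, qsmul, qsmul]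
  have hq' : ∀ z w, qf (elli a' b' (R + β • Id4 n)) z w = qf R z w + β * qf (Id4 n) z w -
      2 * a' / N' * (L + β * ((n : ℝ) - 1)) * qf (Id4 n) z w -
      2 * b' / M' * qf (wdg (Ric0 R) 1) z w := by
    intro z w
    rw [elli, hqsub, hqsub, qsmul, qsmul, qadd, qsmul, hlR', hR0']
  refine ⟨cR', ⟨((cell a' b' _ cR').2).1, fun z w => ?_⟩, fun v => ?_⟩
  · change 0 ≤ qf (elli a' b' (R + β • Id4 n)) z w
    obtain ⟨y0, w1, w2⟩ := hWQ n (Ric0 R) _ _ hsymm hr1 hr2 z w
    have hS := hC.2 z w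
    rw [hq] at hS
    rw [hq']
    set y := qf (Id4 n) z w with hy
    set u := qf (wdg (Ric0 R) 1) z w with hu
    set x := qf R z w with hx
    -- differences of the coefficients
    have d1 : 2 * a / N - 2 * a' / N' = 2 * (a - a') / (N * N') := by
      rw [div_sub_div _ _ hN0.ne' hN'0.ne', hN, hN']
      congr 1
      ring
    have d2 : 2 * b / M - 2 * b' / M' = 2 * (b - b') / (M * M') := by
      rw [div_sub_div _ _ hM0.ne' hM'0.ne', hM, hM']
      congr 1
      ring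
    have d3 : β - 2 * a' / N' * (β * ((n : ℝ) - 1)) = β / N' := by
      rw [hN']
      field_simp
      ring
    have e1 : |2 * (a - a') / (N * N')| ≤ 2 * δ := by
      rw [abs_div, abs_of_pos (mul_pos hN0 hN'0), abs_mul, abs_of_pos (by norm_num : (0 : ℝ) < 2)]
      refine (div_le_self (by positivity) (one_le_mul_of_one_le_of_one_le hN1 hN'1)).trans ?_
      rw [abs_sub_comm]
      linarith
    have e2 : |2 * (b - b') / (M * M')| ≤ 2 * δ := by
      rw [abs_div, abs_of_pos (mul_pos hM0 hM'0), abs_mul, abs_of_pos (by norm_num : (0 : ℝ) < 2)]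
      refine (div_le_self (by positivity) (one_le_mul_of_one_le_of_one_le hM1 hM'1)).trans ?_
      rw [abs_sub_comm]
      linarith
    have hLy : 0 ≤ L * y := mul_nonneg hL0 y0
    have f1 : -(2 * δ * (L * y)) ≤ 2 * (a - a') / (N * N') * (L * y) := by
      have := mul_le_mul_of_nonneg_right (abs_le.1 e1).1 hLy
      linarith
    have hu : |u| ≤ (n : ℝ) ^ 2 * L * y := abs_le.2 ⟨by linarith, w2⟩
    have f2 : -(2 * δ * ((n : ℝ) ^ 2 * L * y)) ≤ 2 * (b - b') / (M * M') * u := by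
      have h1 : |2 * (b - b') / (M * M') * u| ≤ 2 * δ * ((n : ℝ) ^ 2 * L * y) := by
        rw [abs_mul]
        exact mul_le_mul e2 hu (abs_nonneg _) (by positivity)
      linarith [(abs_le.1 h1).1]
    have f3 : 2 * δ * (1 + (n : ℝ) ^ 2) * (L * y) ≤ β / N' * y := by
      have h1 : 2 * δ * (1 + (n : ℝ) ^ 2) ≤ ξ / NΛ := by
        have h2 := mul_le_mul_of_nonneg_left hd3 (show 0 ≤ 2 * (1 + (n : ℝ) ^ 2) by positivity)
        have h3 : 2 * (1 + (n : ℝ) ^ 2) * (ξ / (2 * (1 + (n : ℝ) ^ 2) * NΛ)) = ξ / NΛ := by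
          field_simp
        linarith
      have h2 : ξ / NΛ * L ≤ β / N' := by
        have h3 : ξ / NΛ * L = ξ * L / NΛ := by ring
        rw [h3]
        exact div_le_div₀ hβ0 hβξ hN'0 hN'Λ
      have h4 := mul_le_mul_of_nonneg_right h1 hLy
      have h5 := mul_le_mul_of_nonneg_right h2 y0
      linarith
    have key : x + β * y - 2 * a' / N' * (L + β * ((n : ℝ) - 1)) * y - 2 * b' / M' * u =
        (x - 2 * a / N * L * y - 2 * b / M * u) + β / N' * y +
        2 * (a - a') / (N * N') * (L * y) + 2 * (b - b') / (M * M') * u := by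
      rw [← d1, ← d2, ← d3]
      ring
    rw [key]
    linarith
  · change p' * lam (elli a' b' (R + β • Id4 n)) * nrm v ≤
      rq (Ric (elli a' b' (R + β • Id4 n))) v
    have h1 := hG v
    rw [hval] at h1
    rw [hval']
    set r := rq (Ric0 R) v with hr
    set k := nrm v with hk
    have hk0 : 0 ≤ k := hnrm v
    set s := lam (elli a b R) with hs
    have hsL : L = s * N := by
      rw [lS]; field_simp
    -- the new scalar curvature
    have h2 : s * (N / N') * (1 + ((n : ℝ) - 1) * ξ) ≤ lam (elli a' b' (R + β • Id4 n)) := by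
      rw [lS']
      have h3 : s * (N / N') * (1 + ((n : ℝ) - 1) * ξ) = (L + (ξ * L) * ((n : ℝ) - 1)) / N' := by
        rw [hsL]
        field_simp
      rw [h3]
      refine div_le_div_of_nonneg_right ?_ hN'0.le
      have := mul_le_mul_of_nonneg_right hβξ hnn1
      linarith
    set s' := lam (elli a' b' (R + β • Id4 n)) with hs'
    have hp1 : 0 < 1 - p := by linarith
    have hp'1 : 0 < 1 - p' := by linarith
    -- the three ratios
    have g1 : 1 - ρ / 4 ≤ (1 - p') / (1 - p) := by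
      rw [le_div_iff₀ hp1]
      have h3 : p' - p ≤ δ := (le_abs_self _).trans hdp
      have h4 : ρ / 4 * (1 - P) ≤ ρ / 4 * (1 - p) :=
        mul_le_mul_of_nonneg_left (by linarith) (by positivity)
      linarith
    have g2 : 1 - ρ / 4 ≤ N / N' := by
      rw [le_div_iff₀ hN'0]
      have h3 : a' - a ≤ δ := (le_abs_self _).trans hda
      have h4 : 2 * ((n : ℝ) - 1) * δ ≤ ρ / 4 := by
        have h5 : 2 * ((n : ℝ) - 1) * δ ≤ 2 * n * (ρ / (8 * n)) :=
          mul_le_mul (by linarith) hd2 hδ0.le (by positivity)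
        have h6 : 2 * n * (ρ / (8 * n)) = ρ / 4 := by field_simp; ring
        linarith
      have h5 : 2 * ((n : ℝ) - 1) * (a' - a) ≤ 2 * ((n : ℝ) - 1) * δ :=
        mul_le_mul_of_nonneg_left h3 (by positivity)
      have h6 : ρ / 4 * 1 ≤ ρ / 4 * N' := mul_le_mul_of_nonneg_left hN'1 (by positivity)
      linarith
    have g3 : 1 - ρ / 4 ≤ M' / M := by
      rw [le_div_iff₀ hM0]
      have h3 : b - b' ≤ δ := by
        have := (abs_le.1 hdb).1
        linarith
      have h4 : ((n : ℝ) - 2) * δ ≤ ρ / 4 := by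
        have h5 : ((n : ℝ) - 2) * δ ≤ 2 * n * (ρ / (8 * n)) :=
          mul_le_mul (by linarith) hd2 hδ0.le (by positivity)
        have h6 : 2 * n * (ρ / (8 * n)) = ρ / 4 := by field_simp; ring
        linarith
      have h5 : ((n : ℝ) - 2) * (b - b') ≤ ((n : ℝ) - 2) * δ :=
        mul_le_mul_of_nonneg_left h3 hnn2
      have h6 : ρ / 4 * 1 ≤ ρ / 4 * M := mul_le_mul_of_nonneg_left hM1 (by positivity)
      linarith
    have g4 := st_arith hρ0.le hρ1 g1 g2 g3 hρξ (show (3 : ℝ) ≤ (n : ℝ) - 1 by linarith)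
    have g5 : (M / M') * (1 - p) * s ≤ (1 - p') * s' := by
      have h3 : (M / M') * (1 - p) * s * 1 ≤ (M / M') * (1 - p) * s *
          ((1 - p') / (1 - p) * (N / N') * (M' / M) * (1 + ((n : ℝ) - 1) * ξ)) :=
        mul_le_mul_of_nonneg_left g4 (by positivity)
      have h4 : (M / M') * (1 - p) * s *
          ((1 - p') / (1 - p) * (N / N') * (M' / M) * (1 + ((n : ℝ) - 1) * ξ)) =
          (1 - p') * (s * (N / N') * (1 + ((n : ℝ) - 1) * ξ)) := by
        field_simp
      rw [h4] at h3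
      have h5 := mul_le_mul_of_nonneg_left h2 hp'1.le
      linarith
    have g6 : -((M / M') * (1 - p) * s * k) ≤ r / M' := by
      have h3 : -((1 - p) * s * k) ≤ r / M := by linarith
      have h4 := mul_le_mul_of_nonneg_left h3 (show 0 ≤ M / M' by positivity)
      have h5 : M / M' * (r / M) = r / M' := by field_simp
      linarith
    have g7 := mul_le_mul_of_nonneg_right g5 hk0
    linarith

end Pool.Agent.Helper47.RFn
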